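import Mathlib

/-! # Asymptotic expansions at zero and formal power series

`Asy f φ`: for every `N`, `f q` minus the part of `φ` of degree `< N`, evaluated at `q`, is
`O(q^N)` as `q → 0`. -/

namespace Pool.Agent.Lib.H29V

open Filter Topology Asymptotics PowerSeries Finset

/-- evaluation of the part of degree `< N` -/
noncomputable def ev (N : ℕ) (φ : ℤ⟦X⟧) (q : ℂ) : ℂ := Polynomial.aeval q (trunc N φ)

/-- `f` has the asymptotic expansion `φ` at zero -/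
def Asy (f : ℂ → ℂ) (φ : ℤ⟦X⟧) : Prop :=
  ∀ N : ℕ, (fun q => f q - ev N φ q) =O[𝓝 0] fun q => q ^ N

theorem ev_eq_sum (N : ℕ) (φ : ℤ⟦X⟧) (q : ℂ) :
    ev N φ q = ∑ i ∈ range N, ((coeff i φ : ℤ) : ℂ) * q ^ i := by
  unfold ev
  rw [Polynomial.aeval_def, eval₂_trunc_eq_sum_range]
  simp

theorem poly_bdd (P : Polynomial ℤ) :
    (fun q : ℂ => Polynomial.aeval q P) =O[𝓝 0] fun _ => (1 : ℂ) := by
  have h : Continuous fun q : ℂ => Polynomial.aeval q P := Polynomial.continuous_aeval P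
  exact (h.tendsto 0).isBigO_one ℂ

theorem poly_isBigO (P : Polynomial ℤ) (N : ℕ) (h : ∀ i < N, P.coeff i = 0) :
    (fun q : ℂ => Polynomial.aeval q P) =O[𝓝 0] fun q => q ^ N := by
  obtain ⟨Q, rfl⟩ := Polynomial.X_pow_dvd_iff.mpr h
  have h1 : (fun q : ℂ => Polynomial.aeval q (Polynomial.X ^ N * Q))
      = fun q => q ^ N * Polynomial.aeval q Q := by
    funext q
    simp
  rw [h1]
  have h2 := (isBigO_refl (fun q : ℂ => q ^ N) (𝓝 0)).mul (poly_bdd Q)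
  simpa using h2

theorem Asy.bdd {f : ℂ → ℂ} {φ : ℤ⟦X⟧} (h : Asy f φ) : f =O[𝓝 0] fun _ => (1 : ℂ) := by
  have h0 := h 0
  have : (fun q => f q - ev 0 φ q) = f := by
    funext q
    simp [ev_eq_sum]
  rw [this] at h0
  simpa using h0

theorem Asy.congr {f g : ℂ → ℂ} {φ : ℤ⟦X⟧} (h : Asy f φ) (hfg : f =ᶠ[𝓝 0] g) : Asy g φ := by
  intro N
  apply (h N).congr' _ (EventuallyEq.refl _ _)
  filter_upwards [hfg] with q hq
  rw [hq]

theorem asy_one : Asy (fun _ => 1) 1 := by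
  intro N
  have h := poly_isBigO (1 - trunc N (1 : ℤ⟦X⟧)) N (by
    intro i hi
    rw [Polynomial.coeff_sub, coeff_trunc, if_pos hi, Polynomial.coeff_one, coeff_one]
    split_ifs with h1 h2 h2 <;> simp_all)
  have h1 : (fun q : ℂ => Polynomial.aeval q (1 - trunc N (1 : ℤ⟦X⟧)))
      = fun q => 1 - ev N 1 q := by
    funext q
    simp [ev]
  rw [h1] at h
  exact h

theorem Asy.mul {f g : ℂ → ℂ} {φ ψ : ℤ⟦X⟧} (hf : Asy f φ) (hg : Asy g ψ) :
    Asy (fun q => f q * g q) (φ * ψ) := by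
  intro N
  have h1 : (fun q => f q * (g q - ev N ψ q)) =O[𝓝 0] fun q => q ^ N := by
    have := hf.bdd.mul (hg N)
    simpa using this
  have h2 : (fun q => (f q - ev N φ q) * ev N ψ q) =O[𝓝 0] fun q => q ^ N := by
    have := (hf N).mul (poly_bdd (trunc N ψ))
    simpa [ev] using this
  have h3 : (fun q => ev N φ q * ev N ψ q - ev N (φ * ψ) q) =O[𝓝 0] fun q => q ^ N := by
    have h := poly_isBigO (trunc N φ * trunc N ψ - trunc N (φ * ψ)) N (by
      intro i hi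
      rw [← trunc_trunc_mul_trunc, Polynomial.coeff_sub, coeff_trunc, if_pos hi,
        ← Polynomial.coe_mul, Polynomial.coeff_coe, sub_self])
    have h1 : (fun q : ℂ => Polynomial.aeval q (trunc N φ * trunc N ψ - trunc N (φ * ψ)))
        = fun q => ev N φ q * ev N ψ q - ev N (φ * ψ) q := by
      funext q
      simp [ev]
    rw [h1] at h
    exact h
  have h4 := (h1.add h2).add h3
  apply h4.congr_left
  intro q
  ring

theorem Asy.pow {f : ℂ → ℂ} {φ : ℤ⟦X⟧} (hf : Asy f φ) (m : ℕ) : Asy (fun q => f q ^ m) (φ ^ m) := by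
  induction m with
  | zero => simpa using asy_one
  | succ m ih =>
    have := ih.mul hf
    simpa [pow_succ] using this

theorem asy_prod {ι : Type*} (t : Finset ι) (f : ι → ℂ → ℂ) (φ : ι → ℤ⟦X⟧)
    (h : ∀ i ∈ t, Asy (f i) (φ i)) : Asy (fun q => ∏ i ∈ t, f i q) (∏ i ∈ t, φ i) := by
  classical
  induction t using Finset.induction_on with
  | empty => simpa using asy_one
  | insert x t hx ih =>
    have h1 := (h x (Finset.mem_insert_self x t)).mul
      (ih fun i hi => h i (Finset.mem_insert_of_mem hi))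
    rw [Finset.prod_insert hx]
    apply h1.congr
    filter_upwards with q
    rw [Finset.prod_insert hx]

theorem Asy.unique {f : ℂ → ℂ} {φ ψ : ℤ⟦X⟧} (h : Asy f φ) (h' : Asy f ψ) : φ = ψ := by
  ext i
  induction i using Nat.strong_induction_on with
  | _ i ih =>
    have h1 := (h' (i + 1)).sub (h (i + 1))
    have h2 : (fun q => (f q - ev (i + 1) ψ q) - (f q - ev (i + 1) φ q))
        = fun q => (((coeff i φ - coeff i ψ : ℤ)) : ℂ) * q ^ i := by
      funext q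
      rw [ev_eq_sum, ev_eq_sum, Finset.sum_range_succ, Finset.sum_range_succ]
      have h3 : ∑ x ∈ range i, ((coeff x φ : ℤ) : ℂ) * q ^ x
          = ∑ x ∈ range i, ((coeff x ψ : ℤ) : ℂ) * q ^ x := by
        apply Finset.sum_congr rfl
        intro x hx
        rw [ih x (Finset.mem_range.mp hx)]
      rw [h3]
      push_cast
      ring
    rw [h2] at h1
    set c : ℤ := coeff i φ - coeff i ψ with hc
    obtain ⟨C, hC⟩ := h1.bound
    have h4 : ∀ᶠ q : ℂ in 𝓝[≠] 0, ‖(c : ℂ)‖ ≤ C * ‖q‖ := by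
      have h5 : ∀ᶠ q : ℂ in 𝓝[≠] 0, q ≠ 0 := eventually_mem_nhdsWithin
      filter_upwards [hC.filter_mono nhdsWithin_le_nhds, h5] with q hq hq0
      rw [norm_mul, norm_pow, norm_pow, pow_succ] at hq
      have h6 : 0 < ‖q‖ ^ i := pow_pos (norm_pos_iff.mpr hq0) i
      have h7 : ‖(c : ℂ)‖ * ‖q‖ ^ i ≤ (C * ‖q‖) * ‖q‖ ^ i := by
        calc ‖(c : ℂ)‖ * ‖q‖ ^ i ≤ C * (‖q‖ ^ i * ‖q‖) := hq
          _ = (C * ‖q‖) * ‖q‖ ^ i := by ring
      exact le_of_mul_le_mul_right h7 h6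
    have h8 : Tendsto (fun q : ℂ => C * ‖q‖) (𝓝[≠] 0) (𝓝 0) := by
      have : Tendsto (fun q : ℂ => C * ‖q‖) (𝓝 0) (𝓝 (C * ‖(0 : ℂ)‖)) :=
        (continuous_const.mul continuous_norm).tendsto 0
      rw [norm_zero, mul_zero] at this
      exact this.mono_left nhdsWithin_le_nhds
    have h9 : ‖(c : ℂ)‖ ≤ 0 := ge_of_tendsto h8 h4
    have h10 : (c : ℂ) = 0 := norm_le_zero_iff.mp h9
    have h11 : c = 0 := by exact_mod_cast h10
    omega

theorem Asy.eventually_ne {f : ℂ → ℂ} {φ : ℤ⟦X⟧} (h : Asy f φ) (h0 : coeff 0 φ = 1) :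
    ∀ᶠ q in 𝓝 (0 : ℂ), f q ≠ 0 := by
  have h1 := h 1
  have h2 : Tendsto (fun q => f q - ev 1 φ q) (𝓝 0) (𝓝 0) := by
    apply h1.trans_tendsto
    have : Tendsto (fun q : ℂ => q ^ 1) (𝓝 0) (𝓝 ((0 : ℂ) ^ 1)) :=
      (continuous_pow 1).tendsto 0
    simpa using this
  have h3 : Tendsto f (𝓝 0) (𝓝 1) := by
    have h4 := h2.add_const (1 : ℂ)
    rw [zero_add] at h4
    apply h4.congr
    intro q
    rw [ev_eq_sum]
    simp only [Finset.range_one, Finset.sum_singleton, pow_zero, mul_one, h0]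
    simp
  exact h3.eventually_ne one_ne_zero

/-- a power series that converges in the unit disc is an asymptotic expansion of its sum -/
theorem asy_of_hasSum (a : ℕ → ℤ) (f : ℂ → ℂ)
    (h : ∀ q : ℂ, ‖q‖ < 1 → HasSum (fun N => ((a N : ℤ) : ℂ) * q ^ N) (f q)) :
    Asy f (PowerSeries.mk a) := by
  have h1 : ∃ C : ℝ, ∀ N, ‖((a N : ℤ) : ℂ) * (1 / 2 : ℂ) ^ N‖ ≤ C := by
    have h2 := (h (1 / 2) (by norm_num)).summable.tendsto_atTop_zero
    obtain ⟨C, hC⟩ := (Metric.isBounded_range_of_tendsto _ h2).exists_norm_le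
    exact ⟨C, fun N => hC _ (Set.mem_range_self N)⟩
  obtain ⟨C, hC⟩ := h1
  have hC0 : 0 ≤ C := le_trans (norm_nonneg _) (hC 0)
  intro N
  apply IsBigO.of_bound (C * 2 ^ N * 2)
  have hball : ∀ᶠ q : ℂ in 𝓝 0, ‖q‖ < 1 / 4 := by
    have := Metric.ball_mem_nhds (0 : ℂ) (show (0 : ℝ) < 1 / 4 by norm_num)
    filter_upwards [this] with q hq
    simpa using hq
  filter_upwards [hball] with q hq
  have hs := h q (by linarith)
  have hs2 := (hasSum_nat_add_iff' N).mpr hs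
  have hev : f q - ev N (PowerSeries.mk a) q
      = f q - ∑ i ∈ range N, ((a i : ℤ) : ℂ) * q ^ i := by
    rw [ev_eq_sum]
    simp
  rw [hev]
  have hg : HasSum (fun i : ℕ => (C * 2 ^ N * ‖q‖ ^ N) * (1 / 2 : ℝ) ^ i)
      ((C * 2 ^ N * ‖q‖ ^ N) * 2) := hasSum_geometric_two.mul_left _
  have hb := hs2.norm_le_of_bounded hg (by
    intro i
    have h3 := hC (i + N)
    rw [norm_mul, norm_pow] at h3 ⊢
    have h4 : ‖(1 / 2 : ℂ)‖ = 1 / 2 := by norm_num
    rw [h4] at h3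
    have h5 : ‖((a (i + N) : ℤ) : ℂ)‖ ≤ C * 2 ^ (i + N) := by
      have h6 : (0 : ℝ) < 2 ^ (i + N) := by positivity
      have h7 : ‖((a (i + N) : ℤ) : ℂ)‖ = ‖((a (i + N) : ℤ) : ℂ)‖ * (1 / 2) ^ (i + N) * 2 ^ (i + N) := by
        rw [mul_assoc, ← mul_pow]
        norm_num
      rw [h7]
      exact mul_le_mul_of_nonneg_right h3 h6.le
    have h8 : (2 * ‖q‖) ^ i ≤ (1 / 2 : ℝ) ^ i :=
      pow_le_pow_left₀ (by positivity) (by linarith) i
    calc ‖((a (i + N) : ℤ) : ℂ)‖ * ‖q‖ ^ (i + N)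
        ≤ (C * 2 ^ (i + N)) * ‖q‖ ^ (i + N) := mul_le_mul_of_nonneg_right h5 (by positivity)
      _ = (C * 2 ^ N * ‖q‖ ^ N) * (2 * ‖q‖) ^ i := by
          rw [pow_add, pow_add, mul_pow]; ring
      _ ≤ (C * 2 ^ N * ‖q‖ ^ N) * (1 / 2 : ℝ) ^ i :=
          mul_le_mul_of_nonneg_left h8 (by positivity))
  rw [norm_pow]
  calc ‖f q - ∑ i ∈ range N, ((a i : ℤ) : ℂ) * q ^ i‖ ≤ (C * 2 ^ N * ‖q‖ ^ N) * 2 := hb
    _ = C * 2 ^ N * 2 * ‖q‖ ^ N := by ring

end Pool.Agent.Lib.H29V
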