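import Pool.Agent.Lib.H29V.Defs
import Pool.Agent.Lib.Primc.Zero

/-! # Multisets of parts and arrays of frequencies -/

namespace Pool.Agent.Lib.H29V

open Finset Pool.Agent.Lib.Primc

/-- the frequencies of a multiset of parts -/
def toArr (s : Multiset (ℕ × ℕ)) : ℕ → ℕ → ℕ := fun i c => s.count (i, c)

theorem toArr_inj : Function.Injective toArr := by
  intro s t h
  ext ⟨i, c⟩
  exact congrFun (congrFun h i) c

theorem part_le_size (s : Multiset (ℕ × ℕ)) (x : ℕ × ℕ) (hx : x ∈ s) : x.1 ≤ size s := by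
  unfold size
  exact Multiset.le_sum_of_mem (Multiset.mem_map_of_mem Prod.fst hx)

theorem size_eq (n : ℕ) (s : Multiset (ℕ × ℕ)) (hs : IsColoured n s) (N : ℕ) (hN : size s ≤ N) :
    ∑ i ∈ Finset.range (N + 1), ∑ c ∈ Finset.Icc 1 (2 * n - 1), i * s.count (i, c) = size s := by
  classical
  unfold size
  rw [Finset.sum_multiset_map_count, ← Finset.sum_product' (Finset.range (N + 1))
    (Finset.Icc 1 (2 * n - 1)) (fun i c => i * s.count (i, c))]
  symm
  apply Finset.sum_subset_zero_on_sdiff
  · intro x hx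
    rw [Multiset.mem_toFinset] at hx
    obtain ⟨h1, h2, h3, _⟩ := hs x hx
    have h4 := part_le_size s x hx
    rw [Finset.mem_product, Finset.mem_range, Finset.mem_Icc]
    exact ⟨by omega, h2, h3⟩
  · intro x hx
    rw [Finset.mem_sdiff, Multiset.mem_toFinset] at hx
    rw [Multiset.count_eq_zero.mpr hx.2, mul_zero]
  · intro x _
    rw [smul_eq_mul, mul_comm]

theorem toArr_mem (n : ℕ) (k : ℕ → ℕ) (N : ℕ) (s : Multiset (ℕ × ℕ)) (hs : s ∈ admSet n k N) :
    toArr s ∈ arrays n k N := by
  obtain ⟨⟨hc, hp⟩, hN⟩ := hs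
  refine ⟨?_, ?_, ?_⟩
  · intro i c h
    have hm : (i, c) ∈ s := by
      by_contra hm
      exact h (Multiset.count_eq_zero.mpr hm)
    obtain ⟨h1, h2, h3, h4⟩ := hc _ hm
    have h5 := part_le_size s _ hm
    rw [hN] at h5
    exact ⟨h1, h5, h2, h3, h4⟩
  · rw [← hN]
    exact size_eq n s hc _ le_rfl
  · intro p hp1 hp2
    have h := hp p ⟨hp1, hp2⟩
    unfold level at h
    refine le_trans (le_of_eq ?_) h
    apply Finset.sum_congr rfl
    intro c hc'
    unfold freq toArr
    have hp3 := (hp1 c hc').1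
    by_cases h1 : 1 ≤ p c
    · rw [if_pos h1, if_pos h1]
    · rw [if_neg h1, if_neg h1]
      by_cases h2 : p c = 0
      · rw [if_pos h2, if_pos h2]
      · rw [if_neg h2, if_neg h2]
        have h3 : p c = -1 := by omega
        simp only [h3, true_and]

theorem exists_multiset (n : ℕ) (k : ℕ → ℕ) (N : ℕ) (g : ℕ → ℕ → ℕ) (hg : g ∈ arrays n k N) :
    ∃ s ∈ admSet n k N, toArr s = g := by
  classical
  obtain ⟨h1, h2, h3⟩ := hg
  set B : Finset (ℕ × ℕ) := Finset.range (N + 1) ×ˢ Finset.Icc 1 (2 * n - 1) with hB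
  set s : Multiset (ℕ × ℕ) := ∑ x ∈ B, Multiset.replicate (g x.1 x.2) x with hs
  have hcount : ∀ i c, s.count (i, c) = g i c := by
    intro i c
    rw [hs, Multiset.count_sum']
    simp_rw [Multiset.count_replicate]
    by_cases hm : (i, c) ∈ B
    · rw [Finset.sum_eq_single_of_mem (i, c) hm]
      · simp
      · intro b _ hb
        rw [if_neg hb]
    · rw [Finset.sum_eq_zero]
      · by_contra hne
        have h4 := h1 i c (fun h => hne h.symm)
        apply hm
        rw [hB, Finset.mem_product, Finset.mem_range, Finset.mem_Icc]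
        exact ⟨by simp only []; omega, h4.2.2.1, h4.2.2.2.1⟩
      · intro x hx
        rw [if_neg]
        intro h
        rw [h] at hx
        exact hm hx
  have harr : toArr s = g := by
    funext i c
    exact hcount i c
  have hcol : IsColoured n s := by
    intro x hx
    have h4 : s.count x ≠ 0 := by
      rw [Multiset.count_ne_zero]
      exact hx
    have h5 := hcount x.1 x.2
    have h6 := h1 x.1 x.2 (by rw [← h5]; exact h4)
    exact ⟨h6.1, h6.2.2.1, h6.2.2.2.1, h6.2.2.2.2⟩
  have hle : size s ≤ N := by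
    have h4 : ∀ x ∈ s, x.1 ≤ N := by
      intro x hx
      have h4 : s.count x ≠ 0 := by
        rw [Multiset.count_ne_zero]
        exact hx
      have h5 := hcount x.1 x.2
      exact (h1 x.1 x.2 (by rw [← h5]; exact h4)).2.1
    have h5 : size s = ∑ i ∈ Finset.range (N + 1), ∑ c ∈ Finset.Icc 1 (2 * n - 1), i * g i c := by
      rw [← Finset.sum_product' (Finset.range (N + 1))
        (Finset.Icc 1 (2 * n - 1)) (fun i c => i * g i c)]
      unfold size
      rw [Finset.sum_multiset_map_count]
      apply Finset.sum_subset_zero_on_sdiff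
      · intro x hx
        rw [Multiset.mem_toFinset] at hx
        obtain ⟨h6, h7, h8, _⟩ := hcol x hx
        have h9 := h4 x hx
        rw [Finset.mem_product, Finset.mem_range, Finset.mem_Icc]
        exact ⟨by omega, h7, h8⟩
      · intro x hx
        rw [Finset.mem_sdiff, Multiset.mem_toFinset] at hx
        rw [← hcount x.1 x.2, Multiset.count_eq_zero.mpr hx.2, mul_zero]
      · intro x _
        rw [smul_eq_mul, mul_comm, ← hcount x.1 x.2]
    rw [h5, h2]
  have hsize : size s = N := by
    rw [← size_eq n s hcol N hle]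
    refine Eq.trans ?_ h2
    apply Finset.sum_congr rfl
    intro i _
    apply Finset.sum_congr rfl
    intro c _
    rw [hcount i c]
  refine ⟨s, ⟨⟨hcol, ?_⟩, hsize⟩, harr⟩
  intro p hp
  have h4 := h3 p hp.1 hp.2
  unfold level
  refine le_trans (le_of_eq ?_) h4
  apply Finset.sum_congr rfl
  intro c hc'
  unfold freq
  have hp3 := (hp.1 c hc').1
  by_cases h5 : 1 ≤ p c
  · rw [if_pos h5, if_pos h5, hcount]
  · rw [if_neg h5, if_neg h5]
    by_cases h6 : p c = 0
    · rw [if_pos h6, if_pos h6]
    · rw [if_neg h6, if_neg h6]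
      have h7 : p c = -1 := by omega
      simp only [h7, true_and]

theorem image_admSet (n : ℕ) (k : ℕ → ℕ) (N : ℕ) : toArr '' admSet n k N = arrays n k N := by
  ext g
  constructor
  · rintro ⟨s, hs, rfl⟩
    exact toArr_mem n k N s hs
  · intro hg
    obtain ⟨s, hs, h⟩ := exists_multiset n k N g hg
    exact ⟨s, hs, h⟩

theorem ncard_admSet (n : ℕ) (k : ℕ → ℕ) (N : ℕ) :
    (admSet n k N).ncard = (arrays n k N).ncard := by
  rw [← image_admSet, Set.ncard_image_of_injective _ toArr_inj]

/-- there are finitely many admissible coloured partitions of `N` -/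
theorem admSet_finite (n : ℕ) (k : ℕ → ℕ) (N : ℕ) : (admSet n k N).Finite := by
  classical
  have h : admSet n k N ⊆
      ((Finset.Iic (∑ x ∈ Finset.range (N + 1) ×ˢ Finset.Icc 1 (2 * n - 1),
        Multiset.replicate N x) : Finset (Multiset (ℕ × ℕ))) : Set (Multiset (ℕ × ℕ))) := by
    intro s hs
    obtain ⟨⟨hc, _⟩, hN⟩ := hs
    rw [Finset.coe_Iic, Set.mem_Iic, Multiset.le_iff_count]
    intro x
    by_cases hx : x ∈ s
    · obtain ⟨h1, h2, h3, _⟩ := hc x hx
      have h4 := part_le_size s x hx
      rw [hN] at h4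
      have hm : x ∈ Finset.range (N + 1) ×ˢ Finset.Icc 1 (2 * n - 1) := by
        rw [Finset.mem_product, Finset.mem_range, Finset.mem_Icc]
        exact ⟨by omega, h2, h3⟩
      rw [Multiset.count_sum']
      simp_rw [Multiset.count_replicate]
      rw [Finset.sum_eq_single_of_mem x hm (fun b _ hb => if_neg hb), if_pos rfl]
      have h5 := size_eq n s hc N hN.le
      have h6 : x.1 * s.count x ≤ N := by
        rw [← hN, ← size_eq n s hc N hN.le]
        have h7 : x.1 * s.count (x.1, x.2) ≤ ∑ c ∈ Finset.Icc 1 (2 * n - 1), x.1 * s.count (x.1, c) :=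
          Finset.single_le_sum (f := fun c => x.1 * s.count (x.1, c))
            (fun c _ => Nat.zero_le _) (Finset.mem_Icc.mpr ⟨h2, h3⟩)
        have h8 : ∑ c ∈ Finset.Icc 1 (2 * n - 1), x.1 * s.count (x.1, c) ≤
            ∑ i ∈ Finset.range (N + 1), ∑ c ∈ Finset.Icc 1 (2 * n - 1), i * s.count (i, c) :=
          Finset.single_le_sum (f := fun i => ∑ c ∈ Finset.Icc 1 (2 * n - 1), i * s.count (i, c))
            (fun c _ => Nat.zero_le _) (Finset.mem_range.mpr (by omega))
        exact h7.trans h8
      calc s.count x = 1 * s.count x := (one_mul _).symm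
        _ ≤ x.1 * s.count x := Nat.mul_le_mul_right _ h1
        _ ≤ N := h6
    · rw [Multiset.count_eq_zero.mpr hx]
      exact Nat.zero_le _
  exact (Finset.finite_toSet _).subset h

end Pool.Agent.Lib.H29V
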