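import Mathlib

/-! # Admissible coloured partitions and the product side, as formal power series

The words of the problem: parts `(i, c)` of size `i` and colour `c`, multisets of parts, the
frequencies with their boundary values, paths, and the products
`(q^a; q^b)_∞` and `θ(q^a; q^M)` in the ring of formal power series with integer coefficients. -/

namespace Pool.Agent.Lib.H29V

open Finset PowerSeries

/-- A coloured partition for `n`: a finite multiset of parts `(i, c)` with size `i ≥ 1`, colour `c`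
between `1` and `2n - 1`, and `c + i` odd. -/
def IsColoured (n : ℕ) (s : Multiset (ℕ × ℕ)) : Prop :=
  ∀ x ∈ s, 1 ≤ x.1 ∧ 1 ≤ x.2 ∧ x.2 ≤ 2 * n - 1 ∧ Odd (x.2 + x.1)

/-- The number that is partitioned: the sum of the sizes of the parts. -/
def size (s : Multiset (ℕ × ℕ)) : ℕ := (s.map Prod.fst).sum

/-- The frequency of the part `(i, c)`, extended by the boundary values: in size `0` it is `k 0` on
colour `1` and `k n` on colour `2n - 1` (added when `n = 1`), in size `-1` it is `k c` on colour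
`2c`, `1 ≤ c ≤ n - 1`, and `0` elsewhere. -/
def freq (n : ℕ) (k : ℕ → ℕ) (s : Multiset (ℕ × ℕ)) (i : ℤ) (c : ℕ) : ℕ :=
  if 1 ≤ i then s.count (i.toNat, c)
  else if i = 0 then (if c = 1 then k 0 else 0) + (if c = 2 * n - 1 then k n else 0)
  else if i = -1 ∧ Even c ∧ 2 ≤ c ∧ c ≤ 2 * n - 2 then k (c / 2) else 0

/-- A path: integers `p c ≥ -1`, `1 ≤ c ≤ 2n - 1`, with `p c + c` odd and neighbouring values at
distance one. -/
def IsPath (n : ℕ) (p : ℕ → ℤ) : Prop :=
  (∀ c ∈ Icc 1 (2 * n - 1), -1 ≤ p c ∧ Odd (p c + (c : ℤ))) ∧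
    ∀ r ∈ Icc 1 (2 * n - 2), |p r - p (r + 1)| = 1

/-- The level `k_0 + ... + k_n`. -/
def level (n : ℕ) (k : ℕ → ℕ) : ℕ := ∑ t ∈ range (n + 1), k t

/-- Admissible coloured partitions: every path has weight at most the level. -/
def Admissible (n : ℕ) (k : ℕ → ℕ) (s : Multiset (ℕ × ℕ)) : Prop :=
  IsColoured n s ∧ ∀ p : ℕ → ℤ, IsPath n p →
    ∑ c ∈ Icc 1 (2 * n - 1), freq n k s (p c) c ≤ level n k

/-- The admissible coloured partitions of `N`. -/
def admSet (n : ℕ) (k : ℕ → ℕ) (N : ℕ) : Set (Multiset (ℕ × ℕ)) :=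
  {s | Admissible n k s ∧ size s = N}

/-- The generating function of the admissible coloured partitions. -/
noncomputable def genFun (n : ℕ) (k : ℕ → ℕ) : ℤ⟦X⟧ :=
  PowerSeries.mk fun N => ((admSet n k N).ncard : ℤ)

open scoped PowerSeries.WithPiTopology in
/-- `(q^a; q^b)_∞`, the product over `j ≥ 0` of `1 - q^(a + b j)`: Mathlib's infinite product for
the topology of coefficientwise convergence on the formal power series over the integers. -/
noncomputable def poch (a b : ℕ) : ℤ⟦X⟧ := ∏' j : ℕ, (1 - (X : ℤ⟦X⟧) ^ (a + b * j))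

/-- `θ(q^a; q^M) = (q^a; q^M)_∞ (q^(M - a); q^M)_∞`. -/
noncomputable def theta (M a : ℕ) : ℤ⟦X⟧ := poch a M * poch (M - a) M

/-- `λ_i = k_i + ... + k_n`. -/
def lam (n : ℕ) (k : ℕ → ℕ) (i : ℕ) : ℕ := ∑ t ∈ Icc i n, k t

/-- The modulus `M = 2k + 2n`. -/
def modulus (n : ℕ) (k : ℕ → ℕ) : ℕ := 2 * level n k + 2 * n

end Pool.Agent.Lib.H29V
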