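import Pool.Agent.Lib.H29V.Prod
import Pool.Agent.Lib.H29V.Bij

/-! # The product formula as an identity of formal power series -/

namespace Pool.Agent.Lib.H29V

open Filter Topology Asymptotics PowerSeries Finset Pool.Agent.Lib.Primc

/-- the analytic product `(q^a; q^b)` -/
noncomputable def pochC (a b : ℕ) (q : ℂ) : ℂ := ∏' j : ℕ, (1 - q ^ (a + b * j))

theorem asy_pochC (a b : ℕ) (ha : 1 ≤ a) (hb : 1 ≤ b) : Asy (pochC a b) (poch a b) :=
  asy_poch a b ha hb

theorem qinf_eq (q : ℂ) (m : ℕ) : qinf (q ^ m) = pochC m m q := by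
  unfold qinf pochC
  apply tprod_congr
  intro j
  rw [← pow_mul]
  congr 2
  ring

theorem multipliable_pochC (a b : ℕ) (ha : 1 ≤ a) (hb : 1 ≤ b) (q : ℂ) (hq : ‖q‖ ≤ 1 / 2) :
    Multipliable fun j : ℕ => (1 - q ^ (a + b * j)) := by
  simp_rw [sub_eq_add_neg]
  have := multipliable_one_add_of_summable (summable_norm_term a b ha hb 0 q hq)
  simpa using this

theorem thh_eq (M r : ℕ) (hM : 1 ≤ M) (hr : 1 ≤ r) (hr' : r < M) (q : ℂ) (hq : ‖q‖ ≤ 1 / 2) :
    thh M q r = pochC r M q * pochC (M - r) M q := by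
  unfold thh pochC
  exact (multipliable_pochC r M hr hM q hq).tprod_mul
    (multipliable_pochC (M - r) M (by omega) hM q hq)

theorem asy_thh (M r : ℕ) (hM : 1 ≤ M) (hr : 1 ≤ r) (hr' : r < M) :
    Asy (fun q => thh M q r) (theta M r) := by
  have h := (asy_pochC r M hr hM).mul (asy_pochC (M - r) M (by omega) hM)
  apply h.congr
  have hball : ∀ᶠ q : ℂ in 𝓝 0, ‖q‖ < 1 / 2 := by
    have := Metric.ball_mem_nhds (0 : ℂ) (show (0 : ℝ) < 1 / 2 by norm_num)
    filter_upwards [this] with q hq
    simpa using hq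
  filter_upwards [hball] with q hq
  exact (thh_eq M r hM hr hr' q hq.le).symm

/-- the denominator -/
noncomputable def den (n : ℕ) : ℤ⟦X⟧ := poch 1 1 ^ (n - 1) * poch 2 2

theorem den_coeff (n : ℕ) : coeff 0 (den n) = 1 := by
  unfold den
  rw [coeff_zero_eq_constantCoeff_apply, map_mul, map_pow, ← coeff_zero_eq_constantCoeff_apply,
    ← coeff_zero_eq_constantCoeff_apply, coeff_zero_poch 1 1 le_rfl le_rfl,
    coeff_zero_poch 2 2 (by norm_num) (by norm_num)]
  simp

theorem den_isUnit (n : ℕ) : IsUnit (den n) := by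
  rw [PowerSeries.isUnit_iff_constantCoeff, ← coeff_zero_eq_constantCoeff_apply, den_coeff]
  exact isUnit_one

theorem lib_form (n : ℕ) (hn : 1 ≤ n) (k : ℕ → ℕ) :
    genFun n k * den n = poch (modulus n k) (modulus n k) ^ n *
      ∏ i : Fin n, ∏ j ∈ Finset.Ioi i, (theta (modulus n k) (eN n k j - eN n k i) *
        theta (modulus n k) (eN n k i + eN n k j + 1)) := by
  have hM : 2 * (n + Sk k (n + 1)) = modulus n k := by
    unfold modulus level Sk; ring
  set M := modulus n k with hMdef
  have hM1 : 1 ≤ M := by omega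
  set F : ℂ → ℂ := fun q => (qinf (q ^ M)) ^ n / (qinf (q ^ 2) * (qinf q) ^ (n - 1)) *
        ∏ i, ∏ j ∈ Finset.Ioi i, (thh M q (eN n k j - eN n k i) *
          thh M q (eN n k i + eN n k j + 1)) with hF
  have h1 : Asy F (genFun n k) := by
    apply asy_of_hasSum
    intro q hq
    have h := final n hn k q hq
    rw [hM] at h
    simp_rw [ncard_admSet]
    simpa using h
  have hD : Asy (fun q => qinf q ^ (n - 1) * qinf (q ^ 2)) (den n) := by
    have h2 := ((asy_pochC 1 1 le_rfl le_rfl).pow (n - 1)).mul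
      (asy_pochC 2 2 (by norm_num) (by norm_num))
    have h3 : (fun q => pochC 1 1 q ^ (n - 1) * pochC 2 2 q)
        = fun q => qinf q ^ (n - 1) * qinf (q ^ 2) := by
      funext q
      rw [← qinf_eq q 2, ← qinf_eq q 1, pow_one]
    rw [h3] at h2
    exact h2
  have hL := h1.mul hD
  have hR : Asy (fun q => qinf (q ^ M) ^ n *
      ∏ i : Fin n, ∏ j ∈ Finset.Ioi i, (thh M q (eN n k j - eN n k i) *
          thh M q (eN n k i + eN n k j + 1))) (poch M M ^ n *
      ∏ i : Fin n, ∏ j ∈ Finset.Ioi i, (theta M (eN n k j - eN n k i) *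
        theta M (eN n k i + eN n k j + 1))) := by
    apply Asy.mul
    · have h2 := (asy_pochC M M hM1 hM1).pow n
      have h3 : (fun q => pochC M M q ^ n) = fun q => qinf (q ^ M) ^ n := by
        funext q
        rw [← qinf_eq q M]
      rw [h3] at h2
      exact h2
    · apply asy_prod
      intro i _
      apply asy_prod
      intro j hj
      have hij : eN n k i < eN n k j := eN_strictMono n k (Finset.mem_Ioi.mp hj)
      have hi := eN_lt n k i
      have hj' := eN_lt n k j
      apply Asy.mul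
      · apply asy_thh M _ hM1 (by omega)
        rw [← hM]
        omega
      · apply asy_thh M _ hM1 (by omega)
        rw [← hM]
        omega
  apply Asy.unique hL
  apply hR.congr
  filter_upwards [hD.eventually_ne (den_coeff n)] with q hq
  rw [hF]
  simp only []
  have h4 : ∀ A D P : ℂ, D ≠ 0 → A * P = A / D * P * D := by
    intro A D P hD0
    field_simp
  rw [mul_comm (qinf (q ^ 2)) (qinf q ^ (n - 1))]
  exact h4 _ _ _ hq

theorem theta_symm (M x : ℕ) (hx : x ≤ M) : theta M (M - x) = theta M x := by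
  unfold theta
  rw [Nat.sub_sub_self hx, mul_comm]

/-- reindexing of the double product -/
theorem prod_Icc_Ioc' {R : Type*} [CommMonoid R] (n : ℕ) (f : ℕ → ℕ → R) :
    ∏ i ∈ Finset.Icc 1 n, ∏ j ∈ Finset.Ioc i n, f i j
      = ∏ c : Fin n, ∏ d ∈ Finset.Ioi c, f ((c : ℕ) + 1) ((d : ℕ) + 1) := by
  have h1 : ∏ i ∈ Finset.Icc 1 n, ∏ j ∈ Finset.Ioc i n, f i j
      = ∏ c ∈ Finset.range n, ∏ j ∈ Finset.Ioc (c + 1) n, f (c + 1) j := by
    apply Finset.prod_nbij' (fun i => i - 1) (fun c => c + 1)
    · intro i hi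
      rw [Finset.mem_Icc] at hi
      rw [Finset.mem_range]; omega
    · intro c hc
      rw [Finset.mem_range] at hc
      rw [Finset.mem_Icc]; omega
    · intro i hi
      rw [Finset.mem_Icc] at hi
      omega
    · intro c _
      omega
    · intro i hi
      rw [Finset.mem_Icc] at hi
      have : i - 1 + 1 = i := by omega
      rw [this]
  rw [h1, Finset.prod_range]
  apply Finset.prod_congr rfl
  intro c _
  symm
  apply Finset.prod_bij (fun (d : Fin n) _ => (d : ℕ) + 1)
  · intro d hd
    have h2' : c < d := Finset.mem_Ioi.mp hd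
    have h2 : (c : ℕ) < d := h2'
    rw [Finset.mem_Ioc]
    have := d.2
    omega
  · intro d _ d' _ h
    exact Fin.ext (by omega)
  · intro j hj
    rw [Finset.mem_Ioc] at hj
    refine ⟨⟨j - 1, by omega⟩, ?_, ?_⟩
    · rw [Finset.mem_Ioi]
      show (c : ℕ) < j - 1
      omega
    · simp only; omega
  · intro d _
    rfl

/-- the product formula, denominators multiplied out -/
theorem formal_identity (n : ℕ) (hn : 1 ≤ n) (k : ℕ → ℕ) :
    genFun n k * (poch 1 1 ^ (n - 1) * poch 2 2) =
      poch (modulus n k) (modulus n k) ^ n *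
        ∏ i ∈ Icc 1 n, ∏ j ∈ Ioc i n,
          (theta (modulus n k) (lam n k i - lam n k j + (j - i)) *
            theta (modulus n k) (lam n k i + lam n k j + (2 * n + 1 - (i + j)))) := by
  have hL := lib_form n hn k
  unfold den at hL
  rw [hL]
  congr 1
  have hM : 2 * (n + Sk k (n + 1)) = modulus n k := by
    unfold modulus level Sk; ring
  set M := modulus n k with hMdef
  rw [prod_Icc_Ioc' n (fun i j => (theta M (lam n k i - lam n k j + (j - i)) *
            theta M (lam n k i + lam n k j + (2 * n + 1 - (i + j)))))]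
  apply Finset.prod_congr rfl
  intro c _
  apply Finset.prod_congr rfl
  intro d hd
  have hcd' : c < d := Finset.mem_Ioi.mp hd
  have hcd : (c : ℕ) < d := hcd'
  have hc := c.2
  have hdn := d.2
  have h1 := sum_Icc_eq n k ((c : ℕ) + 1) (by omega)
  have h2 := sum_Icc_eq n k ((d : ℕ) + 1) (by omega)
  have h3 := Sk_mono k (by omega : (c : ℕ) + 1 ≤ (d : ℕ) + 1)
  have h4 := Sk_mono k (by omega : (d : ℕ) + 1 ≤ n + 1)
  have hA : lam n k ((c : ℕ) + 1) - lam n k ((d : ℕ) + 1)
      + (((d : ℕ) + 1) - ((c : ℕ) + 1)) = eN n k d - eN n k c := by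
    unfold eN lam; omega
  have hB : lam n k ((c : ℕ) + 1) + lam n k ((d : ℕ) + 1)
      + (2*n+1 - (((c : ℕ) + 1) + ((d : ℕ) + 1))) = M - (eN n k c + eN n k d + 1) := by
    unfold eN lam; omega
  have hle : eN n k c + eN n k d + 1 ≤ M := by
    unfold eN; omega
  rw [hA, hB, theta_symm M _ hle]

/-- the formal identity with the quotient written with the inverse of the denominator -/
theorem formal_identity_quot (n : ℕ) (hn : 1 ≤ n) (k : ℕ → ℕ) :
    ∃ D : ℤ⟦X⟧, (poch 1 1 ^ (n - 1) * poch 2 2) * D = 1 ∧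
    genFun n k =
      poch (modulus n k) (modulus n k) ^ n * D *
        ∏ i ∈ Icc 1 n, ∏ j ∈ Ioc i n,
          (theta (modulus n k) (lam n k i - lam n k j + (j - i)) *
            theta (modulus n k) (lam n k i + lam n k j + (2 * n + 1 - (i + j)))) := by
  obtain ⟨D, hD⟩ := (den_isUnit n).exists_right_inv
  unfold den at hD
  refine ⟨D, hD, ?_⟩
  have h := formal_identity n hn k
  calc genFun n k = genFun n k * ((poch 1 1 ^ (n - 1) * poch 2 2) * D) := by rw [hD, mul_one]
    _ = (genFun n k * (poch 1 1 ^ (n - 1) * poch 2 2)) * D := by ring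
    _ = _ := by rw [h]; ring

end Pool.Agent.Lib.H29V
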