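import Pool.Agent.Lib.H29V.Defs
import Pool.Agent.Lib.H29V.Asy

/-! # The formal infinite products and their analytic counterparts -/

namespace Pool.Agent.Lib.H29V

open Filter Topology Asymptotics PowerSeries Finset

open scoped PowerSeries.WithPiTopology in
theorem poch_multipliable (a b : ℕ) (hb : 1 ≤ b) :
    Multipliable fun j : ℕ => (1 - (X : ℤ⟦X⟧) ^ (a + b * j)) := by
  simp_rw [sub_eq_add_neg]
  apply PowerSeries.WithPiTopology.multipliable_one_add_of_tendsto_order_atTop_nhds_top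
  refine ENat.tendsto_nhds_top_iff_natCast_lt.mpr (fun n ↦ Filter.eventually_atTop.mpr ⟨n + 1, ?_⟩)
  intro m hm
  rw [order_neg, order_X_pow]
  norm_cast
  nlinarith

theorem coeff_fin_prod (a b : ℕ) (hb : 1 ≤ b) (ha : 1 ≤ a) (N i : ℕ) (hi : i < N) (n : ℕ)
    (hn : N ≤ n) :
    coeff i (∏ j ∈ range n, (1 - (X : ℤ⟦X⟧) ^ (a + b * j)))
      = coeff i (∏ j ∈ range N, (1 - (X : ℤ⟦X⟧) ^ (a + b * j))) := by
  induction n, hn using Nat.le_induction with
  | base => rfl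
  | succ n hn ih =>
    rw [Finset.prod_range_succ, mul_sub, mul_one, map_sub, ih, coeff_mul_X_pow', if_neg, sub_zero]
    nlinarith

open scoped PowerSeries.WithPiTopology in
theorem coeff_poch (a b : ℕ) (ha : 1 ≤ a) (hb : 1 ≤ b) (N i : ℕ) (hi : i < N) :
    coeff i (poch a b) = coeff i (∏ j ∈ range N, (1 - (X : ℤ⟦X⟧) ^ (a + b * j))) := by
  have h1 := (poch_multipliable a b hb).hasProd.tendsto_prod_nat
  have h2 := ((PowerSeries.WithPiTopology.continuous_coeff ℤ i).tendsto (poch a b)).comp h1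
  have h3 : Tendsto (fun n => coeff i (∏ j ∈ range n, (1 - (X : ℤ⟦X⟧) ^ (a + b * j)))) atTop
      (𝓝 (coeff i (∏ j ∈ range N, (1 - (X : ℤ⟦X⟧) ^ (a + b * j))))) := by
    apply tendsto_const_nhds.congr'
    filter_upwards [Filter.eventually_ge_atTop N] with n hn
    rw [coeff_fin_prod a b hb ha N i hi n hn]
  exact tendsto_nhds_unique h2 h3

theorem coeff_zero_poch (a b : ℕ) (ha : 1 ≤ a) (hb : 1 ≤ b) : coeff 0 (poch a b) = 1 := by
  rw [coeff_poch a b ha hb 1 0 (by norm_num)]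
  simp only [Finset.range_one, Finset.prod_singleton, mul_zero, add_zero, map_sub, coeff_one,
    if_true, coeff_X_pow]
  rw [if_neg (by omega)]
  norm_num

/-- the polynomial of the first `N` factors -/
noncomputable def pol (a b N : ℕ) : Polynomial ℤ := ∏ j ∈ range N, (1 - Polynomial.X ^ (a + b * j))

theorem coe_pol (a b N : ℕ) :
    ((pol a b N : Polynomial ℤ) : ℤ⟦X⟧) = ∏ j ∈ range N, (1 - (X : ℤ⟦X⟧) ^ (a + b * j)) := by
  unfold pol
  rw [← Polynomial.coeToPowerSeries.ringHom_apply, map_prod]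
  apply Finset.prod_congr rfl
  intro j _
  simp

theorem aeval_pol (a b N : ℕ) (q : ℂ) :
    Polynomial.aeval q (pol a b N) = ∏ j ∈ range N, (1 - q ^ (a + b * j)) := by
  unfold pol
  rw [map_prod]
  apply Finset.prod_congr rfl
  intro j _
  simp

theorem head_isBigO (a b : ℕ) (ha : 1 ≤ a) (hb : 1 ≤ b) (N : ℕ) :
    (fun q : ℂ => (∏ j ∈ range N, (1 - q ^ (a + b * j))) - ev N (poch a b) q)
      =O[𝓝 0] fun q => q ^ N := by
  have h := poly_isBigO (pol a b N - trunc N (poch a b)) N (by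
    intro i hi
    rw [Polynomial.coeff_sub, coeff_trunc, if_pos hi, coeff_poch a b ha hb N i hi, ← coe_pol,
      Polynomial.coeff_coe, sub_self])
  have h1 : (fun q : ℂ => Polynomial.aeval q (pol a b N - trunc N (poch a b)))
      = fun q => (∏ j ∈ range N, (1 - q ^ (a + b * j))) - ev N (poch a b) q := by
    funext q
    rw [map_sub, aeval_pol]
    rfl
  rw [h1] at h
  exact h

theorem norm_term_le (a b : ℕ) (ha : 1 ≤ a) (hb : 1 ≤ b) (N : ℕ) (q : ℂ) (hq : ‖q‖ ≤ 1 / 2)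
    (j : ℕ) : ‖-q ^ (a + b * (j + N))‖ ≤ ‖q‖ ^ (N + 1) * (1 / 2 : ℝ) ^ j := by
  rw [norm_neg, norm_pow]
  have h1 : N + 1 + j ≤ a + b * (j + N) := by nlinarith
  calc ‖q‖ ^ (a + b * (j + N)) ≤ ‖q‖ ^ (N + 1 + j) :=
        pow_le_pow_of_le_one (norm_nonneg _) (by linarith) h1
    _ = ‖q‖ ^ (N + 1) * ‖q‖ ^ j := pow_add _ _ _
    _ ≤ ‖q‖ ^ (N + 1) * (1 / 2 : ℝ) ^ j :=
        mul_le_mul_of_nonneg_left (pow_le_pow_left₀ (norm_nonneg _) hq j) (by positivity)

theorem summable_norm_term (a b : ℕ) (ha : 1 ≤ a) (hb : 1 ≤ b) (N : ℕ) (q : ℂ)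
    (hq : ‖q‖ ≤ 1 / 2) : Summable fun j : ℕ => ‖-q ^ (a + b * (j + N))‖ := by
  apply Summable.of_nonneg_of_le (fun j => norm_nonneg _) (norm_term_le a b ha hb N q hq)
  exact summable_geometric_two.mul_left _

theorem tail_le (a b : ℕ) (ha : 1 ≤ a) (hb : 1 ≤ b) (N : ℕ) (q : ℂ) (hq : ‖q‖ ≤ 1 / 2) :
    ‖(∏' j : ℕ, (1 - q ^ (a + b * (j + N)))) - 1‖ ≤ 4 * ‖q‖ ^ (N + 1) := by
  have hm : Multipliable fun j : ℕ => (1 + -q ^ (a + b * (j + N))) :=
    multipliable_one_add_of_summable (summable_norm_term a b ha hb N q hq)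
  have h1 : HasProd (fun j : ℕ => (1 - q ^ (a + b * (j + N))))
      (∏' j : ℕ, (1 - q ^ (a + b * (j + N)))) := by
    simp_rw [sub_eq_add_neg]
    exact hm.hasProd
  have h2 : Tendsto (fun t : Finset ℕ => ‖(∏ j ∈ t, (1 - q ^ (a + b * (j + N)))) - 1‖) atTop
      (𝓝 ‖(∏' j : ℕ, (1 - q ^ (a + b * (j + N)))) - 1‖) := by
    exact (Filter.Tendsto.sub_const h1 1).norm
  apply le_of_tendsto h2
  filter_upwards with t
  have h3 := Finset.norm_prod_one_add_sub_one_le t (fun j => -q ^ (a + b * (j + N)))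
  simp_rw [← sub_eq_add_neg] at h3
  apply h3.trans
  have h4 : ∑ j ∈ t, ‖-q ^ (a + b * (j + N))‖ ≤ 2 * ‖q‖ ^ (N + 1) := by
    calc ∑ j ∈ t, ‖-q ^ (a + b * (j + N))‖ ≤ ∑ j ∈ t, ‖q‖ ^ (N + 1) * (1 / 2 : ℝ) ^ j :=
          Finset.sum_le_sum fun j _ => norm_term_le a b ha hb N q hq j
      _ ≤ ∑' j : ℕ, ‖q‖ ^ (N + 1) * (1 / 2 : ℝ) ^ j :=
          (summable_geometric_two.mul_left _).sum_le_tsum _ (fun j _ => by positivity)
      _ = ‖q‖ ^ (N + 1) * 2 := by rw [tsum_mul_left, tsum_geometric_two]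
      _ = 2 * ‖q‖ ^ (N + 1) := by ring
  have h5 : 0 ≤ ∑ j ∈ t, ‖-q ^ (a + b * (j + N))‖ := Finset.sum_nonneg fun j _ => norm_nonneg _
  have h6 : 2 * ‖q‖ ^ (N + 1) ≤ 1 := by
    have h7 : ‖q‖ ^ (N + 1) ≤ (1 / 2 : ℝ) ^ (N + 1) := pow_le_pow_left₀ (norm_nonneg _) hq _
    have h8 : (1 / 2 : ℝ) ^ (N + 1) ≤ 1 / 2 := by
      rw [pow_succ]
      have : (1 / 2 : ℝ) ^ N ≤ 1 := pow_le_one₀ (by norm_num) (by norm_num)
      linarith
    linarith
  have h9 := Real.abs_exp_sub_one_le (x := ∑ j ∈ t, ‖-q ^ (a + b * (j + N))‖)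
    (by rw [abs_of_nonneg h5]; linarith)
  have h10 := le_abs_self (Real.exp (∑ j ∈ t, ‖-q ^ (a + b * (j + N))‖) - 1)
  rw [abs_of_nonneg h5] at h9
  linarith

/-- the infinite product has the formal infinite product as its asymptotic expansion -/
theorem asy_poch (a b : ℕ) (ha : 1 ≤ a) (hb : 1 ≤ b) :
    Asy (fun q => ∏' j : ℕ, (1 - q ^ (a + b * j))) (poch a b) := by
  intro N
  have hball : ∀ᶠ q : ℂ in 𝓝 0, ‖q‖ < 1 / 2 := by
    have := Metric.ball_mem_nhds (0 : ℂ) (show (0 : ℝ) < 1 / 2 by norm_num)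
    filter_upwards [this] with q hq
    simpa using hq
  have htail : (fun q : ℂ => (∏' j : ℕ, (1 - q ^ (a + b * (j + N)))) - 1)
      =O[𝓝 0] fun q => q ^ N := by
    apply IsBigO.of_bound 4
    filter_upwards [hball] with q hq
    apply (tail_le a b ha hb N q hq.le).trans
    rw [norm_pow, pow_succ]
    have : 0 ≤ ‖q‖ ^ N := by positivity
    nlinarith [norm_nonneg q]
  have hhead : (fun q : ℂ => ∏ j ∈ range N, (1 - q ^ (a + b * j))) =O[𝓝 0] fun _ => (1 : ℂ) := by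
    have h := poly_bdd (pol a b N)
    have h1 : (fun q : ℂ => Polynomial.aeval q (pol a b N))
        = fun q => ∏ j ∈ range N, (1 - q ^ (a + b * j)) := by
      funext q
      exact aeval_pol a b N q
    rw [h1] at h
    exact h
  have h1 := (head_isBigO a b ha hb N)
  have h2 : (fun q : ℂ => (∏ j ∈ range N, (1 - q ^ (a + b * j))) *
      ((∏' j : ℕ, (1 - q ^ (a + b * (j + N)))) - 1)) =O[𝓝 0] fun q => q ^ N := by
    have := hhead.mul htail
    simpa using this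
  apply (h1.add h2).congr' _ (EventuallyEq.refl _ _)
  filter_upwards [hball] with q hq
  have hm : Multipliable fun j : ℕ => (1 - q ^ (a + b * (j + N))) := by
    simp_rw [sub_eq_add_neg]
    exact multipliable_one_add_of_summable (summable_norm_term a b ha hb N q hq.le)
  have h3 : ((∏ j ∈ range N, (1 - q ^ (a + b * j))) * ∏' j : ℕ, (1 - q ^ (a + b * (j + N))))
      = ∏' j : ℕ, (1 - q ^ (a + b * j)) :=
    Multipliable.prod_mul_tprod_nat_mul' (f := fun j : ℕ => (1 - q ^ (a + b * j))) hm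
  rw [← h3]
  ring

end Pool.Agent.Lib.H29V
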